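import Mathlib
import Pool.Agent.U685.CE.Conv

set_option autoImplicit false

/-!
# The centralizer of a normal subsystem, and the `Z*`-theorem

`G` is a finite group, `S` a Sylow `p`-subgroup, `H` a normal subgroup of `G`, `T = S ∩ H`.
`C_S(𝓔)`, the centralizer of `𝓔 = 𝓕_T(H)` in `𝓕 = 𝓕_S(G)`, is the largest `X ≤ C_S(T)` such that all
morphisms of `𝓔` extend to morphisms of `𝓕` fixing `X`. We show that it consists of the elements `x`
of `C_S(T)` which are isolated in the Sylow `p`-subgroup `T⟨x⟩` of `H⟨x⟩`. It follows that, for each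
prime `p`, the question `C_S(𝓔) = C_G(H) ∩ S` for all `(G, H)` with `O_{p'}(H) = 1` is equivalent to
its special case `H = G`, which is the `Z*`-theorem for `p`.
-/

namespace Pool.Agent.Results.MP_ed8607_al.CentralizerIsolated

open Pool.Agent.U685.CE

/-- `X ≤ C_S(T)`, `T = S ∩ H`, and every morphism `c_h : P → Q` of `𝓕_T(H)` extends to a morphism
`c_g : P X → S` of `𝓕_S(G)` which is the identity on `X`. -/
def ExtendsFixing {G : Type} [Group G] {p : ℕ} (S : Sylow p G) (H X : Subgroup G) : Prop :=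
  X ≤ (S : Subgroup G) ∧
  (∀ t ∈ (S : Subgroup G) ⊓ H, ∀ x ∈ X, t * x = x * t) ∧
  ∀ P : Subgroup G, P ≤ (S : Subgroup G) ⊓ H → ∀ h ∈ H,
    (∀ y ∈ P, h * y * h⁻¹ ∈ (S : Subgroup G) ⊓ H) →
    ∃ g : G, (∀ y ∈ P ⊔ X, g * y * g⁻¹ ∈ (S : Subgroup G)) ∧
      (∀ y ∈ P, g * y * g⁻¹ = h * y * h⁻¹) ∧ (∀ x ∈ X, g * x * g⁻¹ = x)

/-- `C = C_S(𝓔)`: `C` is the largest subgroup `X` with the property `ExtendsFixing S H X`. -/
def IsCentralizer {G : Type} [Group G] {p : ℕ} (S : Sylow p G) (H C : Subgroup G) : Prop :=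
  ExtendsFixing S H C ∧ ∀ X : Subgroup G, ExtendsFixing S H X → X ≤ C

/-- The positive answer to the question for the prime `p`: if `H` is normal in `G` and
`O_{p'}(H) = 1`, then all `X` with `ExtendsFixing S H X` centralize `H`. -/
def QuestionHolds (p : ℕ) : Prop :=
  ∀ (G : Type) [Group G] [Finite G] (S : Sylow p G) (H : Subgroup G), H.Normal →
    (∀ N : Subgroup G, N ≤ H → (∀ h ∈ H, ∀ n ∈ N, h * n * h⁻¹ ∈ N) →
      Nat.Coprime (Nat.card N) p → N = ⊥) →
    ∀ X : Subgroup G, ExtendsFixing S H X → ∀ x ∈ X, ∀ h ∈ H, x * h = h * x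

/-- The `Z*`-theorem for the prime `p`: if `O_{p'}(L) = 1` and `x ∈ S ∈ Syl_p(L)` is not conjugate
to any other element of `S`, then `x` is central in `L`. -/
def ZStarTheorem (p : ℕ) : Prop :=
  ∀ (L : Type) [Group L] [Finite L] (S : Sylow p L),
    (∀ N : Subgroup L, N.Normal → Nat.Coprime (Nat.card N) p → N = ⊥) →
    ∀ x ∈ S, (∀ g : L, g * x * g⁻¹ ∈ S → g * x * g⁻¹ = x) → ∀ g : L, x * g = g * x

section

variable {G : Type} [Group G] [Finite G] {p : ℕ} [Fact p.Prime]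

lemma pgroup_zpowers {S : Sylow p G} {x : G} (hx : x ∈ S) : IsPGroup p (Subgroup.zpowers x) :=
  S.2.to_le (by rw [Subgroup.zpowers_le]; exact hx)

lemma ExtendsFixing.mono {S : Sylow p G} {H X Y : Subgroup G} (h : ExtendsFixing S H X)
    (hY : Y ≤ X) : ExtendsFixing S H Y := by
  refine ⟨hY.trans h.1, fun t ht x hx => h.2.1 t ht x (hY hx), fun P hP k hk hPk => ?_⟩
  obtain ⟨g, h1, h2, h3⟩ := h.2.2 P hP k hk hPk
  exact ⟨g, fun y hy => h1 y (sup_le_sup_left hY _ hy), h2, fun x hx => h3 x (hY hx)⟩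

/-- Elements of the centralizer are isolated. -/
lemma isolated {S : Sylow p G} {H X : Subgroup G} [H.Normal] (hX : ExtendsFixing S H X) {x : G}
    (hx : x ∈ X) (h : G) (hh : h ∈ H)
    (hhx : h * x * h⁻¹ ∈ Subgroup.zpowers x ⊔ ((S : Subgroup G) ⊓ H)) : h * x * h⁻¹ = x := by
  have hT := isSyl_inf S H
  have hxT : ∀ t ∈ (S : Subgroup G) ⊓ H, t * x = x * t := fun t ht => hX.2.1 t ht x hx
  obtain ⟨-, hinf⟩ := isSyl_sup hT hxT (pgroup_zpowers (hX.1 hx))
  have h1 : x⁻¹ * (h * x * h⁻¹) ∈ (S : Subgroup G) ⊓ H := by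
    rw [← hinf]
    refine Subgroup.mem_inf.2 ⟨Subgroup.mul_mem _ (Subgroup.inv_mem _
      ((le_sup_left : _ ≤ Subgroup.zpowers x ⊔ ((S : Subgroup G) ⊓ H))
        (Subgroup.mem_zpowers x))) hhx, ?_⟩
    have h2 : x⁻¹ * (h * x * h⁻¹) = (x⁻¹ * h * x⁻¹⁻¹) * h⁻¹ := by group
    rw [h2]
    exact H.mul_mem (Subgroup.Normal.conj_mem inferInstance h hh x⁻¹) (H.inv_mem hh)
  have h3 := isolated_of_ext hT hxT (fun P hP k hk hPk => by
    obtain ⟨g, -, h4, h5⟩ := hX.2.2 P hP k hk hPk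
    exact ⟨g, h4, h5 x hx⟩) hh h1 (by group)
  rw [inv_mul_eq_one] at h3
  exact h3.symm

/-- Isolated elements generate groups with the extension property. -/
lemma ext_zpowers {S : Sylow p G} {H : Subgroup G} [H.Normal] {x : G} (hx : x ∈ S)
    (hxT : ∀ t ∈ (S : Subgroup G) ⊓ H, t * x = x * t)
    (hiso : ∀ h ∈ H, h * x * h⁻¹ ∈ Subgroup.zpowers x ⊔ ((S : Subgroup G) ⊓ H) →
      h * x * h⁻¹ = x) : ExtendsFixing S H (Subgroup.zpowers x) := by
  have hzx : Subgroup.zpowers x ≤ (S : Subgroup G) := by rw [Subgroup.zpowers_le]; exact hx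
  refine ⟨hzx, ?_, fun P hP h hh hPh => ?_⟩
  · rintro t ht _ ⟨i, rfl⟩
    have h1 : Commute t x := hxT t ht
    exact (h1.zpow_right i).eq
  · obtain ⟨g, h1, h2⟩ := ext_of_isolated (isSyl_inf S H) hxT (pgroup_zpowers hx) hiso hP hh hPh
    have h3 : ∀ y ∈ Subgroup.zpowers x, g * y * g⁻¹ = y := by
      rintro _ ⟨i, rfl⟩
      have h4 : Commute g x := by
        rw [mul_inv_eq_iff_eq_mul] at h2
        exact h2
      have h5 := (h4.zpow_right i).eq
      change g * x ^ i * g⁻¹ = x ^ i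
      rw [h5, mul_inv_cancel_right]
    refine ⟨g, ?_, h1, h3⟩
    have h6 : P ⊔ Subgroup.zpowers x ≤ (S : Subgroup G).comap (MulAut.conj g).toMonoidHom := by
      refine sup_le (fun y hy => ?_) (fun y hy => ?_)
      · change g * y * g⁻¹ ∈ (S : Subgroup G)
        rw [h1 y hy]
        exact (Subgroup.mem_inf.1 (hPh y hy)).1
      · change g * y * g⁻¹ ∈ (S : Subgroup G)
        rw [h3 y hy]
        exact hzx hy
    exact fun y hy => h6 hy

end

/-- If the `Z*`-theorem holds for `p`, then so does the question. -/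
lemma question_of_zstar {p : ℕ} [Fact p.Prime] (hz : ZStarTheorem p) : QuestionHolds p := by
  intro G _ _ S H hH hO X hX x hx h hh
  have hT := isSyl_inf S H
  have hxT : ∀ t ∈ (S : Subgroup G) ⊓ H, t * x = x * t := fun t ht => hX.2.1 t ht x hx
  have hxp := pgroup_zpowers (hX.1 hx)
  obtain ⟨hL, hinf⟩ := isSyl_sup hT hxT hxp
  set L := Subgroup.zpowers x ⊔ H with hLdef
  set T1 := Subgroup.zpowers x ⊔ ((S : Subgroup G) ⊓ H) with hT1
  have hxL : x ∈ L := (le_sup_left : _ ≤ L) (Subgroup.mem_zpowers x)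
  have hHL : H ≤ L := le_sup_right
  have hT1p : IsPGroup p (T1.subgroupOf L) := hL.pgroup.comap_subtype
  let S' : Sylow p L := hT1p.toSylow hL.index
  have hmemS' : ∀ y : L, y ∈ S' ↔ (y : G) ∈ T1 := by
    intro y
    change y ∈ T1.subgroupOf L ↔ _
    rw [Subgroup.mem_subgroupOf]
  have hdec : ∀ w ∈ L, ∃ k ∈ H, ∃ i : ℤ, w = k * x ^ i := by
    intro w hw
    rw [hLdef, sup_comm] at hw
    obtain ⟨k, hk, z, hz, rfl⟩ := Subgroup.mem_sup_of_normal_left.1 hw
    obtain ⟨i, rfl⟩ := hz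
    exact ⟨k, hk, i, rfl⟩
  have key := hz L S' (by
    intro N hN hcop
    -- the image of `N` lies in `H`
    have h1 : N.map L.subtype ≤ H := by
      rintro _ ⟨n, hn, rfl⟩
      obtain ⟨k, hk, i, hki⟩ := hdec n n.2
      obtain ⟨m, hm⟩ := (IsPGroup.iff_card.1 hxp)
      rw [Nat.card_zpowers] at hm
      have h2 : (n : G) ^ (p ^ m) ∈ H := by
        rw [← QuotientGroup.eq_one_iff]
        rw [QuotientGroup.mk_pow, hki, QuotientGroup.mk_mul, (QuotientGroup.eq_one_iff k).2 hk,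
          one_mul, ← QuotientGroup.mk_pow, ← zpow_natCast, ← zpow_mul, mul_comm, zpow_mul,
          zpow_natCast, ← hm, pow_orderOf_eq_one, one_zpow, QuotientGroup.mk_one]
      have h3 : Nat.Coprime (p ^ m) (orderOf (n : G)) := by
        apply Nat.Coprime.pow_left
        apply Nat.Coprime.symm
        apply Nat.Coprime.coprime_dvd_left _ hcop
        have h4 : orderOf (n : G) = orderOf (⟨n, hn⟩ : N) := by
          rw [Subgroup.orderOf_mk, Subgroup.orderOf_coe]
        rw [h4]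
        exact orderOf_dvd_natCard _
      obtain ⟨a, ha⟩ := exists_pow_eq_self_of_coprime h3
      change (n : G) ∈ H
      rw [← ha]
      exact H.pow_mem h2 a
    have h2 : N.map L.subtype = ⊥ := by
      apply hO _ h1
      · rintro k hk _ ⟨n, hn, rfl⟩
        exact ⟨⟨k, hHL hk⟩ * n * ⟨k, hHL hk⟩⁻¹, hN.conj_mem n hn _, rfl⟩
      · have h3 : Nat.card (N.map L.subtype) = Nat.card N :=
          (Nat.card_congr (N.equivMapOfInjective _ L.subtype_injective).toEquiv).symm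
        rw [h3]
        exact hcop
    rwa [Subgroup.map_eq_bot_iff_of_injective _ L.subtype_injective] at h2) ⟨x, hxL⟩ (by
    rw [hmemS']
    exact (le_sup_left : _ ≤ T1) (Subgroup.mem_zpowers x)) (by
    rintro ⟨w, hw⟩ hwx
    rw [hmemS'] at hwx
    obtain ⟨k, hk, i, rfl⟩ := hdec w hw
    apply Subtype.ext
    change k * x ^ i * x * (k * x ^ i)⁻¹ ∈ T1 at hwx
    change k * x ^ i * x * (k * x ^ i)⁻¹ = x
    have h1 : k * x ^ i * x * (k * x ^ i)⁻¹ = k * x * k⁻¹ := by
      rw [mul_inv_rev, mul_assoc k, ← zpow_add_one, add_comm, zpow_one_add]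
      group
    rw [h1] at hwx ⊢
    exact isolated hX hx k hk hwx) ⟨h, hHL hh⟩
  exact congrArg Subtype.val key

/-- If the question has a positive answer for `p`, then the `Z*`-theorem holds for `p`. -/
lemma zstar_of_question {p : ℕ} [Fact p.Prime] (hq : QuestionHolds p) : ZStarTheorem p := by
  intro L _ _ S hO x hx hiso g
  refine hq L S ⊤ inferInstance ?_ (Subgroup.zpowers x) (ext_zpowers hx ?_ ?_) x
    (Subgroup.mem_zpowers x) g (Subgroup.mem_top g)
  · intro N _ hN hcop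
    exact hO N ⟨fun n hn k => hN k (Subgroup.mem_top k) n hn⟩ hcop
  · intro t ht
    have h1 := (Subgroup.mem_inf.1 ht).1
    have h2 := hiso t (S.mul_mem (S.mul_mem h1 hx) (S.inv_mem h1))
    rw [mul_inv_eq_iff_eq_mul] at h2
    exact h2
  · intro h _ hh
    apply hiso
    have h1 : Subgroup.zpowers x ⊔ ((S : Subgroup L) ⊓ ⊤) ≤ (S : Subgroup L) :=
      sup_le (by rw [Subgroup.zpowers_le]; exact hx) inf_le_left
    exact h1 hh

/-- **Theorem.** Let `p` be a prime.

* For every finite group `G`, `S ∈ Syl_p(G)`, `H ⊴ G`, `T = S ∩ H` and `x ∈ S`, the group `⟨x⟩` has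
  the extension property if and only if `x` centralizes `T` and is the only element of its
  `H`-class in the Sylow `p`-subgroup `T⟨x⟩` of `H⟨x⟩`. So `C_S(𝓔)` is the set of these elements.
* The question has a positive answer for `p` if and only if the `Z*`-theorem holds for `p`. -/
theorem result (p : ℕ) (hp : p.Prime) :
    (∀ (G : Type) [Group G] [Finite G] (S : Sylow p G) (H : Subgroup G), H.Normal →
      (∀ x ∈ S, ExtendsFixing S H (Subgroup.zpowers x) ↔
        ((∀ t ∈ (S : Subgroup G) ⊓ H, t * x = x * t) ∧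
          ∀ h ∈ H, h * x * h⁻¹ ∈ Subgroup.zpowers x ⊔ ((S : Subgroup G) ⊓ H) →
            h * x * h⁻¹ = x)) ∧
      ∀ C : Subgroup G, IsCentralizer S H C → ∀ x : G, x ∈ C ↔
        (x ∈ S ∧ (∀ t ∈ (S : Subgroup G) ⊓ H, t * x = x * t) ∧
          ∀ h ∈ H, h * x * h⁻¹ ∈ Subgroup.zpowers x ⊔ ((S : Subgroup G) ⊓ H) →
            h * x * h⁻¹ = x)) ∧
    (QuestionHolds p ↔ ZStarTheorem p) := by
  haveI : Fact p.Prime := ⟨hp⟩
  refine ⟨fun G _ _ S H hH => ?_, zstar_of_question, question_of_zstar⟩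
  have h1 : ∀ x ∈ S, ExtendsFixing S H (Subgroup.zpowers x) ↔
        ((∀ t ∈ (S : Subgroup G) ⊓ H, t * x = x * t) ∧
          ∀ h ∈ H, h * x * h⁻¹ ∈ Subgroup.zpowers x ⊔ ((S : Subgroup G) ⊓ H) →
            h * x * h⁻¹ = x) := by
    intro x hx
    constructor
    · intro h
      exact ⟨fun t ht => h.2.1 t ht x (Subgroup.mem_zpowers x),
        fun k hk hkx => isolated h (Subgroup.mem_zpowers x) k hk hkx⟩
    · rintro ⟨h1, h2⟩
      exact ext_zpowers hx h1 h2
  refine ⟨h1, fun C hC x => ⟨fun hx => ?_, fun hx => ?_⟩⟩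
  · have h2 : ExtendsFixing S H (Subgroup.zpowers x) :=
      hC.1.mono (by rw [Subgroup.zpowers_le]; exact hx)
    exact ⟨hC.1.1 hx, (h1 x (hC.1.1 hx)).1 h2⟩
  · exact hC.2 _ ((h1 x hx.1).2 hx.2) (Subgroup.mem_zpowers x)

end Pool.Agent.Results.MP_ed8607_al.CentralizerIsolated
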